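import Pool.Agent.helper17.SG.SpecB

set_option autoImplicit false

open MeasureTheory Set Metric Filter Topology
open scoped ENNReal NNReal ComplexConjugate

namespace Pool.Agent.SG

theorem B04_aux (ξ q : ℂ) (h : ‖ξ‖ = 1) : ‖1 - conj q * ξ‖ = ‖ξ - q‖ := by
  have h1 : ξ * conj ξ = 1 := by
    rw [Complex.mul_conj, Complex.normSq_eq_norm_sq, h]; norm_num
  have h2 : ξ - q = ξ * conj (1 - conj q * ξ) := by
    rw [map_sub, map_one, map_mul, Complex.conj_conj]
    linear_combination q * h1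
  rw [h2, norm_mul, h, one_mul, Complex.norm_conj]

/-- B04. Points of the circle. -/
theorem B04 (h2 : B02_stmt) : B04_stmt := by
  intro Γ _ A γ
  obtain ⟨hA, -, -⟩ := h2 Γ A γ
  have key : ∀ z, ‖z‖ ≤ 1 →
      ‖A.act γ z - A.pt γ‖ * ‖1 - conj (A.pt γ⁻¹) * z‖ = A.kk γ * ‖z‖ := by
    intro z hz
    have := hA z 0 hz (by simp)
    simpa [DiscRep.pt] using this
  refine ⟨?_, key, ?_, ?_⟩
  · intro ξ hξ
    have := key ξ hξ.le
    rw [B04_aux _ _ hξ, hξ, mul_one] at this
    exact this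
  · intro ξ η hξ hη
    have := hA ξ η hξ.le hη.le
    rw [B04_aux _ _ hξ, B04_aux _ _ hη, mul_assoc] at this
    exact this
  · intro ξ hξ
    have h3 : 1 - ‖A.pt γ‖ ≤ ‖ξ - A.pt γ‖ := by
      have := norm_sub_norm_le ξ (A.pt γ)
      rwa [hξ] at this
    have h4 : A.kk γ / 2 ≤ 1 - ‖A.pt γ‖ ∨ 1 < ‖A.pt γ‖ := by
      by_cases h5 : ‖A.pt γ‖ ≤ 1
      · left
        unfold DiscRep.kk
        nlinarith [norm_nonneg (A.pt γ)]
      · right; exact lt_of_not_ge h5
    rcases h4 with h4 | h4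
    · exact h4.trans h3
    · have : A.kk γ < 0 := by
        unfold DiscRep.kk
        nlinarith
      have := norm_nonneg (ξ - A.pt γ)
      linarith

end Pool.Agent.SG
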