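import Pool.Agent.helper3.SG.SpecS

set_option autoImplicit false

open MeasureTheory Set Metric Filter Topology
open scoped ENNReal NNReal ComplexConjugate commutatorElement

namespace Pool.Agent.SG

theorem S11_nonneg {Γ : Type} [Group Γ] (A : DiscRep Γ) (g : Γ) : 0 ≤ A.dev g := by
  unfold DiscRep.dev
  have h1 : 0 ≤ min ‖A.a g - 1‖ ‖A.a g + 1‖ := le_min (norm_nonneg _) (norm_nonneg _)
  have h2 := norm_nonneg (A.b g)
  linarith

/-- S11. Uniform discreteness. -/
theorem S11 (h6 : S06_stmt) (h9 : S09_stmt) (h10 : S10_stmt) : S11_stmt := by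
  intro Γ _ hTF hNA W D
  set D' := max D 1 with hD'
  have hD1 : 1 ≤ D' := le_max_right _ _
  have hD0 : 0 < D' := lt_of_lt_of_le one_pos hD1
  have hD2 : 1 ≤ D' ^ 2 := by nlinarith
  refine ⟨1 / (32 * D' ^ 2), by positivity, ?_⟩
  intro A hA hS g hg
  by_contra hlt
  rw [not_le] at hlt
  have hcsa := h6 Γ hTF A hA
  have hg8 : A.dev g ≤ 1 / 8 := by
    refine hlt.le.trans ?_
    rw [div_le_div_iff₀ (by positivity) (by norm_num)]
    nlinarith
  have hcomm : ∀ s ∈ W.S, Commute s g := by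
    intro s hs
    apply hcsa.1 s g hg
    apply h10 Γ hTF A hA g (s * g * s⁻¹) hg8
    have h1 := (h9 Γ A).1 s g
    have h2 : ‖A.a s‖ ^ 2 ≤ D' ^ 2 := by
      have h3 : ‖A.a s‖ ≤ D' := (hS s hs).trans (le_max_left _ _)
      exact pow_le_pow_left₀ (norm_nonneg _) h3 2
    have h4 : 4 * ‖A.a s‖ ^ 2 * A.dev g ≤ 4 * D' ^ 2 * (1 / (32 * D' ^ 2)) := by
      apply mul_le_mul _ hlt.le (S11_nonneg A g) (by positivity)
      linarith
    have h5 : 4 * D' ^ 2 * (1 / (32 * D' ^ 2)) = 1 / 8 := by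
      field_simp
      norm_num
    linarith
  have hall : ∀ x : Γ, Commute x g := by
    intro x
    have h1 : Submonoid.closure (W.S : Set Γ) ≤ Submonoid.centralizer {g} := by
      rw [Submonoid.closure_le]
      intro s hs
      rw [SetLike.mem_coe, Submonoid.mem_centralizer_iff]
      intro m hm
      rw [Set.mem_singleton_iff] at hm
      subst hm
      exact (hcomm s hs).symm.eq
    have h2 : x ∈ Submonoid.centralizer {g} := by
      apply h1
      rw [W.gen]
      exact Submonoid.mem_top x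
    rw [Submonoid.mem_centralizer_iff] at h2
    exact (h2 g (Set.mem_singleton g)).symm
  obtain ⟨x, y, hxy⟩ := hNA
  exact hxy (hcsa.2 x y g hg (hall x) (hall y))

end Pool.Agent.SG
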